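import Pool.Agent.Lib.helper13.PR

namespace Pool.Agent.Results.MP_18fff8_lc.No
open Classical Encodable Denumerable Nat.Partrec Nat.Partrec.Code Pool.Agent.Lib.PR

/-- structures for the relational language whose symbol i has arity `ar i` (none: no such symbol) -/
structure Str (ar : ℕ → Option ℕ) where
  U : Set ℕ
  R : ℕ → List ℕ → Prop
  wf : ∀ i l, R i l → ar i = some l.length ∧ ∀ a ∈ l, a ∈ U

variable {ar : ℕ → Option ℕ}

/-- true atomic sentences: (0, [a, b]) is a = b, and (i + 1, l) is R i l -/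
def Str.diag (M : Str ar) (q : ℕ × List ℕ) : Prop := (q.1 = 0 ∧ ∃ a ∈ M.U, q.2 = [a, a]) ∨ (0 < q.1 ∧ M.R (q.1 - 1) q.2)

def Idx (e : ℕ) (M : Str ar) : Prop := ∀ q, (if M.diag q then 1 else 0) ∈ (ofNat Code e).eval (encode q)

def Emb (M N : Str ar) (h : ℕ → ℕ) : Prop := Set.MapsTo h M.U N.U ∧ Set.InjOn h M.U ∧
  ∀ i l, (∀ a ∈ l, a ∈ M.U) → (M.R i l ↔ N.R i (l.map h))

def Iso (M N : Str ar) : Prop := ∃ h, Emb M N h ∧ Set.SurjOn h M.U N.U

def IK (K : Set (Str ar)) : Set ℕ := {e | ∃ M ∈ K, Idx e M}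

def BiEmb (ar : ℕ → Option ℕ) (e d : ℕ) : Prop := ∃ M N : Str ar, Idx e M ∧ Idx d N ∧ (∃ h, Emb M N h) ∧ ∃ h, Emb N M h

def Red (X : Set ℕ) (E : ℕ → ℕ → Prop) (Y : Set ℕ) (F : ℕ → ℕ → Prop) : Prop := ∃ f : ℕ →. ℕ, Partrec f ∧
  (∀ x ∈ X, ∃ a ∈ f x, a ∈ Y) ∧ ∀ x ∈ X, ∀ y ∈ X, ∀ a ∈ f x, ∀ b ∈ f y, (E x y ↔ F a b)

def Sig11 (E : ℕ → ℕ → Prop) : Prop := ∃ P : ℕ × ℕ × List ℕ → Prop, ComputablePred P ∧
  ∀ x y, E x y ↔ ∃ f : ℕ → ℕ, ∀ n, P (x, y, (List.range n).map f)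

def S : Set ℕ := {m | ∀ e, m ∈ (ofNat Code e).eval (2 * e) → m ≤ 2 * e}

theorem imm {Y : ℕ →. ℕ} (h : Partrec Y) (k : ∀ n, ∃ y ∈ Y n, n < y ∧ y ∈ S) : False := by
  obtain ⟨c, rfl⟩ := exists_code.1 (Partrec.nat_iff.1 h)
  obtain ⟨y, a, b, d⟩ := k (2 * encode c)
  exact absurd (d (encode c) (by simpa using a)) (by omega)

theorem S_inf (n) : ∃ y ∈ S, n < y := by
  by_contra h
  push Not at h
  have : ∀ m : Finset.Ioc n (3 * n + 2), ∃ e : Finset.range (2 * n + 1), m.1 ∈ (ofNat Code e).eval (2 * e) := fun m => by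
    have := Finset.mem_Ioc.1 m.2
    have k : m.1 ∉ S := fun k => absurd (h _ k) (by omega)
    simp only [S, Set.mem_ofPred_eq, not_forall] at k
    obtain ⟨e, a, b⟩ := k
    exact ⟨⟨e, by simp; omega⟩, a⟩
  choose f k using this
  have := Fintype.card_le_of_injective f fun a b e => Subtype.ext (Part.mem_unique (k a) (e ▸ k b))
  simp at this; omega

theorem lt_enc {a : ℕ} {l : List ℕ} (i : ℕ) (h : a ∈ l) : a < encode (i, l) := by
  refine lt_of_lt_of_le ?_ (Nat.right_le_pair ..)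
  induction h with
  | head => exact Nat.lt_succ_of_le (Nat.left_le_pair ..)
  | tail _ _ ih => exact ih.trans_le ((Nat.right_le_pair ..).trans (Nat.le_succ _))

theorem Str.mem (M : Str ar) (a) : M.diag (0, [a, a]) ↔ a ∈ M.U := by simp [Str.diag]

theorem idx_uniq {e} {M N : Str ar} (h : Idx e M) (k : Idx e N) : M = N := by
  have : ∀ q, M.diag q ↔ N.diag q := fun q => by
    have := Part.mem_unique (h q) (k q)
    split_ifs at this <;> simp_all
  cases M; cases N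
  congr
  · ext a; simpa [Str.diag] using this (0, [a, a])
  · ext i l; simpa [Str.diag] using this (i + 1, l)

attribute [local irreducible] Primrec Computable

section
variable {α : Type} [Primcodable α] {p q : α → Prop}

theorem c_and (a : Computable fun x => cd (p x)) (b : Computable fun x => cd (q x)) :
    Computable fun x => cd (p x ∧ q x) :=
  (Primrec.and.to_comp.comp a b).of_eq fun _ => by rw [Bool.eq_iff_iff]; simp

theorem c_not (a : Computable fun x => cd (p x)) : Computable fun x => cd (¬ p x) :=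
  (Primrec.not.to_comp.comp a).of_eq fun _ => by rw [Bool.eq_iff_iff]; simp [← Bool.not_eq_true]

theorem c_imp (a : Computable fun x => cd (p x)) (b : Computable fun x => cd (q x)) :
    Computable fun x => cd (p x → q x) := (c_not (c_and a (c_not b))).of_eq fun _ => by simp

theorem c_iff (a : Computable fun x => cd (p x)) (b : Computable fun x => cd (q x)) :
    Computable fun x => cd (p x ↔ q x) := (c_and (c_imp a b) (c_imp b a)).of_eq fun _ => by rw [iff_def]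

theorem c_all {P : α → ℕ → Prop} {m : α → ℕ} (a : Computable fun x : α × ℕ => cd (P x.1 x.2)) (b : Computable m) :
    Computable fun x => cd (∀ i < m x, P x i) :=
  (b.nat_rec (Computable.const true) (h := fun x y => y.2 && cd (P x y.1)) (Primrec.and.to_comp.comp
    (Computable.snd.comp .snd) (a.comp (g := fun y : α × ℕ × Bool => (y.1, y.2.1)) (by fun_prop))).to₂).of_eq fun x => by
      induction m x with
      | zero => simp
      | succ n ih => simp only [ih]; rw [Bool.eq_iff_iff, cd_true, Nat.forall_lt_succ_right]; simp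
end

def rho (s : ℕ) (p : List ℕ) (a : ℕ) : ℕ := if a < s then p.getD a 0 else a - s

def V (A B : Str ar) (s : ℕ) (p : List ℕ) (a : ℕ) : Prop := (a < s → a ∈ A.U) ∧ rho s p a ∈ B.U ∧
  ∀ b < s, b ∈ A.U → rho s p b = rho s p a → a < s

def cp (A B : Str ar) (s : ℕ) (p : List ℕ) : Str ar :=
  ⟨V A B s p, fun i l => (∀ a ∈ l, V A B s p a) ∧ B.R i (l.map (rho s p)), fun i l h => ⟨by simpa using (B.wf _ _ h.2).1, h.1⟩⟩

theorem cp_iso {A B : Str ar} {s p} (h : ∀ a < s, a ∈ A.U → rho s p a ∈ B.U ∧ ∀ b < s, b ∈ A.U → rho s p a = rho s p b → a = b) :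
    Iso (cp A B s p) B := by
  refine ⟨rho s p, ⟨fun a k => k.2.1, fun a k b l e => ?_, fun i l k => and_iff_right k⟩, fun y k => ?_⟩
  · by_cases c : a < s
    · have d := l.2.2 a c (k.1 c) e
      exact (h a c (k.1 c)).2 b d (l.1 d) e
    · have d : ¬ b < s := fun d => c (k.2.2 b d (l.1 d) e.symm)
      simp only [rho, c, d, if_false] at e; omega
  · by_cases c : ∃ b < s, b ∈ A.U ∧ rho s p b = y
    · obtain ⟨b, c, d, rfl⟩ := c
      exact ⟨b, ⟨fun _ => d, k, fun _ _ _ _ => c⟩, rfl⟩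
    · have e : rho s p (y + s) = y := by simp [rho]
      exact ⟨y + s, ⟨by omega, by rwa [e], fun b i j l => (c ⟨b, i, j, l.trans e⟩).elim⟩, e⟩

theorem Iso.symm {A B : Str ar} : Iso A B → Iso B A := by
  rintro ⟨h, ⟨a, b, c⟩, d⟩
  have i := Set.BijOn.invOn_invFunOn ⟨a, b, d⟩
  refine ⟨h.invFunOn A.U, ⟨d.mapsTo_invFunOn, i.2.injOn, fun j l k => ?_⟩, i.1.surjOn a⟩
  rw [c j _ (by simpa using fun x e => d.mapsTo_invFunOn (k x e)), List.map_map,
    List.map_congr_left (f := h ∘ h.invFunOn A.U) (g := id) fun x e => i.2 (k x e), List.map_id]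

theorem result : ∃ E : ℕ → ℕ → Prop, Equivalence E ∧ Sig11 E ∧ ∀ (ar : ℕ → Option ℕ) (K : Set (Str ar)),
    (∀ M N, Iso M N → M ∈ K → N ∈ K) → ¬ (Red Set.univ E (IK K) (BiEmb ar) ∧ Red (IK K) (BiEmb ar) Set.univ E) := by
  refine ⟨fun x y => x = y ∨ (x ∈ S ∧ y ∈ S), ⟨fun _ => .inl rfl, by grind, by grind⟩, ?_, ?_⟩
  · have k : ∀ x, x ∈ S ↔ ∀ n, ∀ e < n, evaln n (ofNat Code e) (2 * e) = some x → x ≤ 2 * e := fun x =>
      ⟨fun h n e _ k => h e (evaln_sound k), fun h e k => let ⟨n, l⟩ := evaln_complete.1 k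
        h (n + e + 1) e (by omega) (evaln_mono (by omega) l)⟩
    refine ⟨fun z => z.1 = z.2.1 ∨ ((∀ e < z.2.2.length, evaln z.2.2.length (ofNat Code e) (2 * e) = some z.1 →
      z.1 ≤ 2 * e) ∧ ∀ e < z.2.2.length, evaln z.2.2.length (ofNat Code e) (2 * e) = some z.2.1 → z.2.1 ≤ 2 * e),
      (pred (by fun_prop)).computablePred, fun x y => ?_⟩
    simp [k, forall_or_left, forall_and]
  rintro ar K hK ⟨⟨g, g1, g2, g3⟩, f, f1, f2, f3⟩
  choose g g4 M M1 M2 using fun x => g2 x trivial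
  have cg : Computable g := g1.of_eq_tot g4
  choose h h1 _ using fun x => f2 (g x) ⟨_, M1 x, M2 x⟩
  have ch : Computable h := (f1.comp cg).of_eq_tot h1
  have hE := fun x y => (g3 x trivial y trivial _ (g4 x) _ (g4 y)).trans
    (f3 _ ⟨_, M1 x, M2 x⟩ _ ⟨_, M1 y, M2 y⟩ _ (h1 x) _ (h1 y))
  obtain ⟨x, hx, -⟩ := S_inf 0
  have un : ∀ n, ∃ y ∈ S, n < h y := by
    by_contra n
    push Not at n
    obtain ⟨n, k⟩ := n
    let F := (List.range (n + 1)).filter fun m => cd (h x = m ∨ (h x ∈ S ∧ m ∈ S))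
    have k'' : ∀ y, h y ∈ F → y ∈ S := fun y e =>
      ((hE x y).2 (by simpa using (List.mem_filter.1 e).2)).elim (· ▸ hx) (·.2)
    have k' : ∀ y ∈ S, h y ∈ F := fun y a => List.mem_filter.2 ⟨List.mem_range.2 (Nat.lt_succ_of_le (k y a)),
      cd_true.2 ((hE x y).1 (.inr ⟨hx, a⟩))⟩
    refine imm (Y := fun m => Nat.rfind fun y => Part.some (cd (m < y ∧ h y ∈ F))) (Partrec.rfind (Computable.partrec
      (f := fun p : ℕ × ℕ => cd (p.1 < p.2 ∧ h p.2 ∈ F)) (c_and (c_prim (by fun_prop)) ((c_prim (f := fun m => cd (m ∈ F))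
        (by fun_prop)).comp (ch.comp .snd)))).to₂) fun m => ?_
    obtain ⟨y, a, b⟩ := S_inf m
    obtain ⟨z, c, -⟩ := Nat.rfind_min' (p := fun y => cd (m < y ∧ h y ∈ F)) (m := y) (cd_true.2 ⟨b, k' y a⟩)
    have d : m < z ∧ h z ∈ F := by simpa using Nat.rfind_spec c
    exact ⟨z, c, d.1, k'' z d.2⟩
  have cD : Computable fun z : ℕ × ℕ × List ℕ => cd ((M z.1).diag z.2) :=
    ((c_prim (f := fun n : ℕ => cd (n = 1)) (by fun_prop)).comp ((eval_part.comp ((Computable.ofNat Code).comp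
      (cg.comp .fst)) (Computable.encode.comp .snd)).of_eq_tot fun z => M2 z.1 z.2)).of_eq fun z => by simp
  have cU : Computable fun z : ℕ × ℕ => cd (z.2 ∈ (M z.1).U) :=
    (cD.comp (g := fun z : ℕ × ℕ => (z.1, 0, [z.2, z.2])) (c_prim (by fun_prop))).of_eq fun z => by rw [Str.mem]
  have cV : Computable fun z : (ℕ × ℕ × List ℕ) × ℕ => cd (V (M x) (M z.1.2.1) z.1.1 z.1.2.2 z.2) :=
    c_and (c_imp (c_prim (by fun_prop)) (cU.comp (g := fun z : (ℕ × ℕ × List ℕ) × ℕ => (x, z.2)) (by fun_prop)))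
      (c_and (cU.comp (g := fun z : (ℕ × ℕ × List ℕ) × ℕ => (z.1.2.1, rho z.1.1 z.1.2.2 z.2))
        (c_prim (by unfold rho; fun_prop))) (c_all (c_imp (cU.comp (g := fun z : ((ℕ × ℕ × List ℕ) × ℕ) × ℕ => (x, z.2))
          (by fun_prop)) (c_prim (by unfold rho; fun_prop))) (by fun_prop)))
  have cC : Computable fun z : (ℕ × ℕ × List ℕ) × ℕ × List ℕ => cd ((cp (M x) (M z.1.2.1) z.1.1 z.1.2.2).diag z.2) :=
    (c_and (c_all (m := fun z : (ℕ × ℕ × List ℕ) × ℕ × List ℕ => z.2.2.length)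
      (P := fun z j => V (M x) (M z.1.2.1) z.1.1 z.1.2.2 (z.2.2.getD j 0)) (cV.comp
      (g := fun z : ((ℕ × ℕ × List ℕ) × ℕ × List ℕ) × ℕ => (z.1.1, z.1.2.2.getD z.2 0)) (c_prim (by fun_prop)))
      (c_prim (by fun_prop))) (c_and (c_prim (f := fun z : (ℕ × ℕ × List ℕ) × ℕ × List ℕ => cd (z.2.1 = 0 →
        z.2.2 = [z.2.2.getD 0 0, z.2.2.getD 0 0])) (by fun_prop)) (cD.comp (g := fun z : (ℕ × ℕ × List ℕ) × ℕ × List ℕ =>
      (z.1.2.1, z.2.1, z.2.2.map (rho z.1.1 z.1.2.2))) (c_prim (by unfold rho; fun_prop))))).of_eq (by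
      rintro ⟨⟨s, y, p⟩, i, l⟩
      refine congrArg cd (propext ?_)
      have : (∀ j < l.length, V (M x) (M y) s p (l.getD j 0)) ↔ ∀ a ∈ l, V (M x) (M y) s p a := by
        simp +contextual [List.forall_mem_iff_forall_getElem]
      simp only [this]
      rcases i with _ | i
      · simp only [Str.diag, cp, true_and, lt_self_iff_false, false_and, or_false, forall_true_left]
        exact ⟨fun ⟨a, b, _⟩ => ⟨_, a _ (by rw [b]; simp), b⟩, by rintro ⟨a, b, rfl⟩; exact ⟨by simpa using show V _ _ _ _ a from b, rfl, _, b.2.1, rfl⟩⟩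
      · simp [Str.diag, cp])
  obtain ⟨cf, rfl⟩ := exists_code.1 (Partrec.nat_iff.1 f1)
  let ck : ℕ × ℕ → ℕ × ℕ × List ℕ → Prop := fun z r => ((evaln r.1 cf z.1).isSome ∧ evaln r.1 cf z.1 ≠ some (h r.2.1) ∧
    z.2 < h r.2.1) ∧ (∀ a < r.1, a ∈ (M x).U → rho r.1 r.2.2 a ∈ (M r.2.1).U ∧
      ∀ b < r.1, b ∈ (M x).U → rho r.1 r.2.2 a = rho r.1 r.2.2 b → a = b) ∧
    ∀ q < r.1, (M x).diag (ofNat _ q) ↔ (cp (M x) (M r.2.1) r.1 r.2.2).diag (ofNat _ q)
  have cc : Computable fun z : (ℕ × ℕ) × ℕ × ℕ × List ℕ => cd (ck z.1 z.2) :=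
    c_and ((c_prim (f := fun z : ((ℕ × ℕ) × ℕ × ℕ × List ℕ) × ℕ => cd ((evaln z.1.2.1 cf z.1.1.1).isSome ∧
      evaln z.1.2.1 cf z.1.1.1 ≠ some z.2 ∧ z.1.1.2 < z.2)) (by fun_prop)).comp (Computable.id.pair (ch.comp (by fun_prop))))
      (c_and (c_all (c_imp (cU.comp (g := fun z : ((ℕ × ℕ) × ℕ × ℕ × List ℕ) × ℕ => (x, z.2)) (by fun_prop))
        (c_and (cU.comp (g := fun z : ((ℕ × ℕ) × ℕ × ℕ × List ℕ) × ℕ => (z.1.2.2.1, rho z.1.2.1 z.1.2.2.2 z.2))
          (c_prim (by unfold rho; fun_prop))) (c_all (c_imp (cU.comp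
            (g := fun z : (((ℕ × ℕ) × ℕ × ℕ × List ℕ) × ℕ) × ℕ => (x, z.2)) (by fun_prop))
            (c_prim (by unfold rho; fun_prop))) (by fun_prop)))) (by fun_prop))
        (c_all (c_iff (cD.comp (g := fun z : ((ℕ × ℕ) × ℕ × ℕ × List ℕ) × ℕ => (x, ofNat _ z.2)) (c_prim (by fun_prop)))
          (cC.comp (g := fun z : ((ℕ × ℕ) × ℕ × ℕ × List ℕ) × ℕ => (z.1.2, ofNat _ z.2)) (c_prim (by fun_prop))))
          (by fun_prop)))
  let sr : ℕ × ℕ →. ℕ × ℕ × List ℕ := fun z => (Nat.rfind fun r => Part.some (cd (ck z (ofNat _ r)))).map (ofNat _)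
  have ps : Partrec sr := (Partrec.rfind (cc.comp (g := fun z : (ℕ × ℕ) × ℕ => (z.1, ofNat _ z.2))
    (c_prim (by fun_prop))).partrec.to₂).map (c_prim (f := fun z : (ℕ × ℕ) × ℕ => ofNat _ z.2) (by fun_prop)).to₂
  obtain ⟨c, hc⟩ := fixed_point₂ (f := fun c n => bif (evaln n.unpair.2 cf (encode (curry c n.unpair.1))).isSome then
    (sr (encode (curry c n.unpair.1), n.unpair.1)).map fun r =>
      (cd ((cp (M x) (M r.2.1) r.1 r.2.2).diag (ofNat _ n.unpair.2))).toNat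
    else Part.some (cd ((M x).diag (ofNat _ n.unpair.2))).toNat) (by
      have : Primrec fun z : Code × ℕ => encode (curry z.1 z.2.unpair.1) :=
        Primrec.encode.comp (primrec₂_curry.comp .fst (by fun_prop))
      exact Partrec.cond (c_prim (by fun_prop)) ((ps.comp (c_prim (by fun_prop))).map
        ((c_prim (Primrec.dom_bool _)).comp (cC.comp (g := fun z : (Code × ℕ) × ℕ × ℕ × List ℕ =>
          (z.2, ofNat _ z.1.2.unpair.2)) (c_prim (by fun_prop)))).to₂) ((c_prim (Primrec.dom_bool _)).comp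
        (cD.comp (g := fun z : Code × ℕ => (x, ofNat _ z.2.unpair.2)) (c_prim (by fun_prop)))).partrec)
  refine imm (Y := fun n => (sr (encode (curry c n), n)).map fun r => h r.2.1) ((ps.comp (c_prim
    ((Primrec.encode.comp (primrec₂_curry.comp (.const c) .id)).pair .id))).map
    (ch.comp (Computable.fst.comp (Computable.snd.comp .snd))).to₂) fun n => ?_
  have ev : ∀ q : ℕ × List ℕ, (ofNat Code (encode (curry c n))).eval (encode q) =
      bif (evaln (encode q) cf (encode (curry c n))).isSome then (sr (encode (curry c n), n)).map fun r =>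
      (cd ((cp (M x) (M r.2.1) r.1 r.2.2).diag q)).toNat else Part.some (cd ((M x).diag q)).toNat := fun q => by
    have : ofNat (ℕ × List ℕ) (encode q) = q := ofNat_encode q
    simp only [ofNat_encode, eval_curry, hc, Nat.unpair_pair, this]
  generalize encode (curry c n) = e at *
  have tn : ∀ p : Prop, (cd p).toNat = if p then 1 else 0 := fun p => by
    by_cases k : p <;> simp [cd, k]
  obtain ⟨s, z, hs⟩ : ∃ s z, evaln s cf e = some z := by
    by_contra k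
    push Not at k
    obtain ⟨z, a, -⟩ := f2 e ⟨_, M1 x, fun q => by
      rw [ev, Option.eq_none_iff_forall_ne_some.2 (k _), tn]; exact Part.mem_some _⟩
    exact let ⟨s, a⟩ := evaln_complete.1 a; k s z a
  obtain ⟨y, y1, y2⟩ := un (max n z)
  obtain ⟨A, B, a, b, ⟨j, j1, j2, j3⟩, -⟩ := (g3 x trivial y trivial _ (g4 x) _ (g4 y)).1 (.inr ⟨hx, y1⟩)
  obtain rfl := idx_uniq a (M2 x)
  obtain rfl := idx_uniq b (M2 y)
  have rj : ∀ a < s, rho s ((List.range s).map j) a = j a := fun a k => by simp [rho, k]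
  have vj : ∀ a < s, V (M x) (M y) s ((List.range s).map j) a ↔ a ∈ (M x).U := fun a k =>
    ⟨fun v => v.1 k, fun v => ⟨fun _ => v, by rw [rj a k]; exact j1 v, fun _ _ _ _ => k⟩⟩
  obtain ⟨r, r1, -⟩ := Nat.rfind_min' (p := fun r => cd (ck (e, n) (ofNat _ r)))
    (m := encode (s, y, (List.range s).map j)) (cd_true.2 (by
      rw [show ofNat _ (encode (s, y, (List.range s).map j)) = (s, y, (List.range s).map j) from ofNat_encode _]
      refine ⟨by simp [hs]; omega, fun a k u => ⟨by rw [rj a k]; exact j1 u, fun b l v w => j2 u v (by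
        rwa [rj a k, rj b l] at w)⟩, fun q k => ?_⟩
      have t : ∀ a ∈ (ofNat (ℕ × List ℕ) q).2, a < s := fun a u =>
        (lt_enc _ u).trans ((encode_ofNat (α := ℕ × List ℕ) q).trans_lt k)
      generalize ofNat (ℕ × List ℕ) q = q at t
      refine or_congr (and_congr_right' ⟨fun ⟨a, u, v⟩ => ⟨a, (vj a (t a (by simp [v]))).2 u, v⟩,
        fun ⟨a, u, v⟩ => ⟨a, (vj a (t a (by simp [v]))).1 u, v⟩⟩) (and_congr_right' ?_)
      simp only [cp]
      rw [List.map_congr_left fun a u => rj a (t a u)]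
      exact ⟨fun u => ⟨fun a v => (vj a (t a v)).2 (((M x).wf _ _ u).2 a v), (j3 _ _ ((M x).wf _ _ u).2).1 u⟩,
        fun u => (j3 _ _ fun a v => (vj a (t a v)).1 (u.1 a v)).2 u.2⟩))
  have r2 : ck (e, n) (ofNat _ r) := by simpa using Nat.rfind_spec r1
  have r3 : ofNat _ r ∈ sr (e, n) := Part.mem_map _ r1
  generalize ofNat (ℕ × ℕ × List ℕ) r = r at r2 r3
  obtain ⟨⟨k1, k2, k3⟩, k4, k5⟩ := r2
  obtain ⟨w, k1⟩ := Option.isSome_iff_exists.1 k1
  have i := cp_iso k4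
  have d : Idx e (cp (M x) (M r.2.1) r.1 r.2.2) := fun q => by
    rw [ev, ← tn]
    cases o : evaln (encode q) cf e with
    | some _ => exact Part.mem_map _ r3
    | none =>
      have := k5 (encode q) (not_le.1 fun l => by simpa [o] using evaln_mono l k1)
      rw [show ofNat _ (encode q) = q from ofNat_encode _] at this
      simp [this]
  refine ⟨_, Part.mem_map _ r3, k3, (((f3 _ ⟨_, hK _ _ i.symm (M1 _), d⟩ _ ⟨_, M1 _, M2 _⟩ _ (evaln_sound k1) _ (h1 _)).1
    ⟨_, _, d, M2 _, i.imp fun _ => And.left, i.symm.imp fun _ => And.left⟩).resolve_left fun l => k2 (l ▸ k1)).2⟩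

end Pool.Agent.Results.MP_18fff8_lc.No
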